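import Mathlib

/-!
# Parameters for the reserved primes

`δ = min (ε / 36) 1`, `x = ⌊δ log X / log log X⌋`, `U` = integer part of the bound.
-/

open Filter Topology

namespace Pool.Agent.Lib.LPFR

set_option maxHeartbeats 4000000

private theorem sq_log_le : ∃ y₁ : ℝ, ∀ y : ℝ, y₁ ≤ y → Real.log y ^ 2 ≤ y := by
  have h := (Real.isLittleO_pow_log_id_atTop (n := 2)).bound (show (0 : ℝ) < 1 by norm_num)
  obtain ⟨y₁, hy⟩ := eventually_atTop.1 (h.and (eventually_ge_atTop (0 : ℝ)))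
  refine ⟨y₁, fun y hyy => ?_⟩
  obtain ⟨h1, h2⟩ := hy y hyy
  rw [one_mul, Real.norm_eq_abs, Real.norm_eq_abs, abs_of_nonneg (sq_nonneg _), id,
    abs_of_nonneg h2] at h1
  exact h1

private theorem log_le_eps (η : ℝ) (hη : 0 < η) : ∀ᶠ y : ℝ in atTop, Real.log y ≤ η * y := by
  have h := Real.isLittleO_log_id_atTop.bound hη
  filter_upwards [h, eventually_ge_atTop (0 : ℝ)] with y h1 h2
  rw [Real.norm_eq_abs, Real.norm_eq_abs, id, abs_of_nonneg h2] at h1
  exact (le_abs_self _).trans h1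

/-- the size of `4 ^ x * (2 * (U ^ 2 + 1) ^ (3 x))` -/
private theorem size (c δ ε A B : ℝ) (x U : ℕ) (hx1 : 1 ≤ x) (hxc : c ^ 2 + 1 ≤ (x : ℝ))
    (hU : (U : ℝ) ≤ c * (x : ℝ) ^ 2) (hB : 1 ≤ B) (hlx : Real.log x ≤ B)
    (hxB : (x : ℝ) * B ≤ δ * A) (hA : 0 < A) (hδε : δ ≤ ε / 36) :
    (4 : ℝ) ^ x * (2 * ((U : ℝ) ^ 2 + 1) ^ (3 * x)) ≤ Real.exp (ε / 2 * A) := by
  have hx0 : (0 : ℝ) < x := by exact_mod_cast hx1
  have hx1' : (1 : ℝ) ≤ x := by exact_mod_cast hx1
  have hU0 : (0 : ℝ) ≤ U := Nat.cast_nonneg U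
  have e1 : (U : ℝ) ^ 2 + 1 ≤ (x : ℝ) ^ 5 := by
    have h1 : (U : ℝ) ^ 2 ≤ (c * (x : ℝ) ^ 2) ^ 2 := pow_le_pow_left₀ hU0 hU 2
    have h2 : (1 : ℝ) ≤ (x : ℝ) ^ 4 := one_le_pow₀ hx1'
    calc (U : ℝ) ^ 2 + 1 ≤ (c * (x : ℝ) ^ 2) ^ 2 + (x : ℝ) ^ 4 := by linarith
      _ = (c ^ 2 + 1) * (x : ℝ) ^ 4 := by ring
      _ ≤ (x : ℝ) * (x : ℝ) ^ 4 := mul_le_mul_of_nonneg_right hxc (by positivity)
      _ = (x : ℝ) ^ 5 := by ring
  have e2 : ((U : ℝ) ^ 2 + 1) ^ (3 * x) ≤ Real.exp (15 * (x : ℝ) * B) := by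
    calc ((U : ℝ) ^ 2 + 1) ^ (3 * x) ≤ ((x : ℝ) ^ 5) ^ (3 * x) :=
          pow_le_pow_left₀ (by positivity) e1 _
      _ = (x : ℝ) ^ (15 * x) := by rw [← pow_mul]; ring_nf
      _ = Real.exp (Real.log x * ((15 * x : ℕ) : ℝ)) := by
          rw [Real.exp_mul, Real.exp_log hx0, Real.rpow_natCast]
      _ ≤ Real.exp (15 * (x : ℝ) * B) := by
          apply Real.exp_le_exp.2
          push_cast
          nlinarith [mul_le_mul_of_nonneg_right hlx (by positivity : (0 : ℝ) ≤ 15 * x)]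
  have e3 : (4 : ℝ) ^ x ≤ Real.exp (2 * (x : ℝ)) := by
    have h4 : (4 : ℝ) ≤ Real.exp 2 := by
      have := Real.add_one_le_exp (1 : ℝ)
      have h5 : Real.exp 2 = Real.exp 1 * Real.exp 1 := by
        rw [← Real.exp_add]
        norm_num
      rw [h5]
      nlinarith
    calc (4 : ℝ) ^ x ≤ (Real.exp 2) ^ x := pow_le_pow_left₀ (by norm_num) h4 _
      _ = Real.exp (2 * (x : ℝ)) := by rw [← Real.exp_nat_mul]; ring_nf
  have e4 : (2 : ℝ) ≤ Real.exp ((x : ℝ)) := by
    have := Real.add_one_le_exp (x : ℝ)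
    linarith
  calc (4 : ℝ) ^ x * (2 * ((U : ℝ) ^ 2 + 1) ^ (3 * x))
      ≤ Real.exp (2 * (x : ℝ)) * (Real.exp (x : ℝ) * Real.exp (15 * (x : ℝ) * B)) := by
        gcongr
    _ = Real.exp (2 * (x : ℝ) + ((x : ℝ) + 15 * (x : ℝ) * B)) := by
        rw [Real.exp_add, Real.exp_add]
    _ ≤ Real.exp (ε / 2 * A) := by
        apply Real.exp_le_exp.2
        have h1 : (x : ℝ) ≤ x * B := le_mul_of_one_le_right hx0.le hB
        have h2 : δ * A ≤ ε / 36 * A := mul_le_mul_of_nonneg_right hδε hA.le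
        nlinarith

/-- the lower bound for the main term -/
private theorem lower (δ A B C D x lx llx lllx : ℝ) (hδ : 0 < δ) (hA : 0 < A) (hB : 1 ≤ B)
    (hC : 2 ≤ C) (hD : 2 ≤ D) (hx : δ / 2 * A / B ≤ x) (h1 : B / 2 ≤ lx) (h2 : llx ≤ C)
    (h2' : 0 < llx) (h3 : D / 2 ≤ lllx) :
    δ / 16 * (A * B * D / C ^ 2) ≤ x * lx ^ 2 * lllx / llx ^ 2 := by
  have hB0 : 0 < B := by linarith
  have e1 : δ / 16 * (A * B * D / C ^ 2) = (δ / 2 * A / B) * (B / 2) ^ 2 * (D / 2) / C ^ 2 := by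
    field_simp
    ring
  rw [e1]
  have hx0 : 0 < δ / 2 * A / B := by positivity
  have hx1 : 0 < x := lt_of_lt_of_le hx0 hx
  have hlx : 0 < lx := by linarith
  have hlll : 0 < lllx := by linarith
  gcongr

/-- `x = ⌊δ log X / log log X⌋`, `U` = integer part of the bound; `log U ≤ 2 log x + log c⁺`. -/
theorem asy (c : ℝ) (hc : 0 < c) (x₀ : ℕ) (ε : ℝ) (hε : 0 < ε) (hε2 : ε < 2) :
    ∃ c' X₀ : ℝ, 0 < c' ∧
    ∀ X : ℝ, X₀ ≤ X → 1 ≤ X ∧ ∃ x U : ℕ, x₀ ≤ x ∧ 1 ≤ x ∧
      (U : ℝ) ≤ c * (x * Real.log x ^ 2 * Real.log (Real.log (Real.log x)) /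
        Real.log (Real.log x) ^ 2) ∧
      c' * (Real.log X * Real.log (Real.log X) * Real.log (Real.log (Real.log (Real.log X))) /
        Real.log (Real.log (Real.log X)) ^ 2) ≤ U ∧
      (4 : ℝ) ^ x * (2 * ((U : ℝ) ^ 2 + 1) ^ (3 * x)) ≤ X ^ (ε / 2) ∧
      X ^ (1 - ε) ≤ X ^ (1 - ε / 2) - 2 := by
  set δ : ℝ := min (ε / 36) 1 with hδ
  have hδ0 : 0 < δ := lt_min (by positivity) one_pos
  have hδ1 : δ ≤ 1 := min_le_right _ _
  have hδε : δ ≤ ε / 36 := min_le_left _ _
  have t1 : Tendsto Real.log atTop atTop := Real.tendsto_log_atTop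
  have t2 : Tendsto (fun X => Real.log (Real.log X)) atTop atTop := t1.comp t1
  have t3 : Tendsto (fun X => Real.log (Real.log (Real.log X))) atTop atTop := t1.comp t2
  have t4 : Tendsto (fun X => Real.log (Real.log (Real.log (Real.log X)))) atTop atTop :=
    t1.comp t3
  obtain ⟨y₁, hy₁⟩ := sq_log_le
  set M : ℝ := (x₀ : ℝ) + |y₁| + c ^ 2 + 3 with hM
  have hM0 : 0 < M := by positivity
  refine ⟨c * δ / 32, ?_⟩
  have E : ∀ᶠ X : ℝ in atTop, 1 ≤ X ∧ ∃ x U : ℕ, x₀ ≤ x ∧ 1 ≤ x ∧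
      (U : ℝ) ≤ c * (x * Real.log x ^ 2 * Real.log (Real.log (Real.log x)) /
        Real.log (Real.log x) ^ 2) ∧
      c * δ / 32 * (Real.log X * Real.log (Real.log X) *
        Real.log (Real.log (Real.log (Real.log X))) /
        Real.log (Real.log (Real.log X)) ^ 2) ≤ U ∧
      (4 : ℝ) ^ x * (2 * ((U : ℝ) ^ 2 + 1) ^ (3 * x)) ≤ X ^ (ε / 2) ∧
      X ^ (1 - ε) ≤ X ^ (1 - ε / 2) - 2 := by
    filter_upwards [eventually_ge_atTop (1 : ℝ), t2.eventually_ge_atTop 1,
      t3.eventually_ge_atTop 2, t4.eventually_ge_atTop 2,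
      t1.eventually_ge_atTop (32 / (c * δ)), t1.eventually_ge_atTop 1,
      t1.eventually (log_le_eps (δ / M) (by positivity)),
      t2.eventually (log_le_eps (1 / 4) (by norm_num)),
      t2.eventually_ge_atTop (-4 * Real.log (δ / 2)), t2.eventually_ge_atTop y₁,
      (tendsto_rpow_atTop (show 0 < 1 - ε / 2 by linarith)).eventually_ge_atTop 4,
      (tendsto_rpow_atTop (show 0 < ε / 2 by linarith)).eventually_ge_atTop 2]
      with X hX1 hB1 hC2 hD2 hA hA1 hBA hCB hBδ hBy hX4 hX2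
    set A := Real.log X with hAdef
    set B := Real.log A with hBdef
    set C := Real.log B with hCdef
    set D := Real.log C with hDdef
    refine ⟨hX1, ⌊δ * A / B⌋₊, ?_⟩
    set x := ⌊δ * A / B⌋₊ with hx
    have hB0 : 0 < B := by linarith
    have hA0 : 0 < A := by linarith
    have hC0 : 0 < C := by linarith
    have hXpos : 0 < X := by linarith
    have hq : M ≤ δ * A / B := by
      rw [le_div_iff₀ hB0]
      have h1 : M * B ≤ M * (δ / M * A) := mul_le_mul_of_nonneg_left hBA hM0.le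
      have h2 : M * (δ / M * A) = δ * A := by
        field_simp
      linarith
    have hxle : (x : ℝ) ≤ δ * A / B := Nat.floor_le (by positivity)
    have hxgt : δ * A / B - 1 < x := by
      have := Nat.lt_floor_add_one (δ * A / B)
      linarith
    have hxM : M - 1 ≤ x := by linarith
    have hxx₀ : x₀ ≤ x := by
      have h1 : (x₀ : ℝ) ≤ x := by
        have := abs_nonneg y₁
        have := sq_nonneg c
        linarith
      exact_mod_cast h1
    have hx1 : 1 ≤ x := by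
      have h1 : (1 : ℝ) ≤ x := by
        have := abs_nonneg y₁
        have := sq_nonneg c
        have : (0 : ℝ) ≤ x₀ := Nat.cast_nonneg _
        linarith
      exact_mod_cast h1
    have hxy : y₁ ≤ (x : ℝ) := by
      have := le_abs_self y₁
      have := sq_nonneg c
      have : (0 : ℝ) ≤ x₀ := Nat.cast_nonneg _
      linarith
    have hxc : c ^ 2 + 1 ≤ (x : ℝ) := by
      have := abs_nonneg y₁
      have : (0 : ℝ) ≤ x₀ := Nat.cast_nonneg _
      linarith
    have hx0 : (0 : ℝ) < x := by exact_mod_cast hx1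
    have hM3 : 3 ≤ M := by
      have := abs_nonneg y₁
      have := sq_nonneg c
      have : (0 : ℝ) ≤ x₀ := Nat.cast_nonneg _
      linarith
    have hxlow : δ / 2 * A / B ≤ x := by
      have h1 : δ / 2 * A / B = δ * A / B / 2 := by ring
      rw [h1]
      linarith
    have hxA : (x : ℝ) ≤ A := by
      refine hxle.trans ?_
      rw [div_le_iff₀ hB0]
      have h1 : δ * A ≤ 1 * A := mul_le_mul_of_nonneg_right hδ1 hA0.le
      have h2 : A ≤ A * B := le_mul_of_one_le_right hA0.le hB1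
      linarith
    have hlx : Real.log x ≤ B := Real.log_le_log hx0 hxA
    have hlx2 : B / 2 ≤ Real.log x := by
      have h1 : Real.log (δ / 2 * A / B) ≤ Real.log x := Real.log_le_log (by positivity) hxlow
      have h2 : Real.log (δ / 2 * A / B) = Real.log (δ / 2) + B - C := by
        rw [Real.log_div (by positivity) (by positivity), Real.log_mul (by positivity)
          (by positivity)]
      linarith
    have hlx0 : 0 < Real.log x := by linarith
    have hllx : Real.log (Real.log x) ≤ C := Real.log_le_log hlx0 hlx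
    have hlog2 : Real.log 2 ≤ 1 := by
      have := Real.log_le_sub_one_of_pos (show (0 : ℝ) < 2 by norm_num)
      linarith
    have hllx2 : C / 2 ≤ Real.log (Real.log x) := by
      have h1 : Real.log (B / 2) ≤ Real.log (Real.log x) := Real.log_le_log (by positivity) hlx2
      rw [Real.log_div (by positivity) (by norm_num)] at h1
      linarith
    have hllx1 : 1 ≤ Real.log (Real.log x) := by linarith
    have hlllx2 : D / 2 ≤ Real.log (Real.log (Real.log x)) := by
      have h1 : Real.log (C / 2) ≤ Real.log (Real.log (Real.log x)) :=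
        Real.log_le_log (by positivity) hllx2
      rw [Real.log_div (by positivity) (by norm_num)] at h1
      linarith
    have hlll1 : Real.log (Real.log (Real.log x)) ≤ Real.log (Real.log x) ^ 2 := by
      have h1 := Real.log_le_sub_one_of_pos (show 0 < Real.log (Real.log x) by linarith)
      have h2 : Real.log (Real.log x) ≤ Real.log (Real.log x) * Real.log (Real.log x) :=
        le_mul_of_one_le_right (by linarith) hllx1
      rw [pow_two]
      linarith
    set F : ℝ := x * Real.log x ^ 2 * Real.log (Real.log (Real.log x)) /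
      Real.log (Real.log x) ^ 2 with hF
    have hF1 : δ / 16 * (A * B * D / C ^ 2) ≤ F :=
      lower δ A B C D x (Real.log x) (Real.log (Real.log x)) (Real.log (Real.log (Real.log x)))
        hδ0 hA0 hB1 hC2 hD2 hxlow hlx2 hllx (by linarith) hlllx2
    have hF0 : 0 ≤ F := by
      refine le_trans ?_ hF1
      have : 0 < D := by linarith
      positivity
    have hF2 : F ≤ (x : ℝ) ^ 2 := by
      have h1 : F = x * Real.log x ^ 2 * (Real.log (Real.log (Real.log x)) /
        Real.log (Real.log x) ^ 2) := by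
        rw [hF]
        ring
      have h2 : Real.log (Real.log (Real.log x)) / Real.log (Real.log x) ^ 2 ≤ 1 := by
        rw [div_le_one (by positivity)]
        exact hlll1
      have h3 : Real.log x ^ 2 ≤ x := hy₁ _ hxy
      rw [h1]
      have h4 : (x : ℝ) * Real.log x ^ 2 * (Real.log (Real.log (Real.log x)) /
          Real.log (Real.log x) ^ 2) ≤ (x : ℝ) * Real.log x ^ 2 * 1 :=
        mul_le_mul_of_nonneg_left h2 (by positivity)
      have h5 : (x : ℝ) * Real.log x ^ 2 ≤ (x : ℝ) * x :=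
        mul_le_mul_of_nonneg_left h3 hx0.le
      rw [pow_two (x : ℝ)]
      linarith
    have hUle : ((⌊c * F⌋₊ : ℕ) : ℝ) ≤ c * F := Nat.floor_le (by positivity)
    refine ⟨⌊c * F⌋₊, hxx₀, hx1, hUle, ?_, ?_, ?_⟩
    · have h1 : c * F - 1 < (⌊c * F⌋₊ : ℕ) := by
        have := Nat.lt_floor_add_one (c * F)
        linarith
      set G : ℝ := A * B * D / C ^ 2 with hG
      have hG1 : A ≤ G := by
        rw [hG, le_div_iff₀ (by positivity)]
        have h2 : C ^ 2 ≤ B := hy₁ B hBy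
        have h3 : A * C ^ 2 ≤ A * B := mul_le_mul_of_nonneg_left h2 hA0.le
        have h4 : A * B ≤ A * B * D := le_mul_of_one_le_right (by positivity) (by linarith)
        linarith
      have h5 : c * (δ / 16 * G) ≤ c * F := mul_le_mul_of_nonneg_left hF1 hc.le
      have h6 : 1 ≤ c * δ / 32 * G := by
        have h7 : 32 / (c * δ) ≤ G := hA.trans hG1
        rw [div_le_iff₀ (by positivity)] at h7
        linarith
      linarith
    · have h1 := size c δ ε A B x ⌊c * F⌋₊ hx1 hxc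
        (hUle.trans (mul_le_mul_of_nonneg_left hF2 hc.le)) hB1 hlx
        (by rwa [le_div_iff₀ hB0] at hxle) hA0 hδε
      rw [Real.rpow_def_of_pos hXpos, mul_comm (Real.log X)]
      exact h1
    · have h1 : X ^ (1 - ε / 2) = X ^ (1 - ε) * X ^ (ε / 2) := by
        rw [← Real.rpow_add hXpos]
        ring_nf
      have h2 : 0 ≤ X ^ (1 - ε) := Real.rpow_nonneg hXpos.le _
      have h3 : X ^ (1 - ε) * 2 ≤ X ^ (1 - ε) * X ^ (ε / 2) := mul_le_mul_of_nonneg_left hX2 h2
      linarith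
  obtain ⟨X₀, hX₀⟩ := eventually_atTop.1 E
  exact ⟨X₀, by positivity, hX₀⟩

end Pool.Agent.Lib.LPFR
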