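import Pool.Agent.Lib.LPFR.Defs
import Pool.Agent.Lib.LPF680.Run

open Finset
open scoped Classical

namespace Pool.Agent.Lib.LPFR

/-- The residue class: `n ≡ - r p` for `p ≤ x` not reserved, `n` odd, `n ≡ - k` modulo `q (k / 2)` for
the even `k` which survive and for the even `k ≤ √x`. `M` is the product of these different primes,
`M ≤ primorial x * 2 * ∏ (k ^ 2 + 1)`. -/
theorem crt {q : ℕ → ℕ} (hq : Res q) {x U : ℕ} (hx : 1 ≤ x) (r : ℕ → ℕ)
    (hS : ((Ioc 0 U).filter fun k =>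
      ∀ p : ℕ, p.Prime → p ≤ x → (∀ m, p ≠ q m) → k % p ≠ r p).card ≤ 2 * x) :
    ∃ M b : ℕ, 0 < M ∧ M ≤ 4 ^ x * (2 * (U ^ 2 + 1) ^ (3 * x)) ∧
      ∀ n : ℕ, n % M = b % M → ∀ k : ℕ, 1 ≤ k → k ≤ U → (n + k).minFac ≤ k ^ 2 + 1 := by
  set S := (Ioc 0 U).filter fun k =>
      ∀ p : ℕ, p.Prime → p ≤ x → (∀ m, p ≠ q m) → k % p ≠ r p with hSdef
  set P1 : Finset ℕ := (range (x + 1)).filter fun p => p.Prime ∧ ∀ m, p ≠ q m with hP1
  set T : Finset ℕ := (Ioc 0 U).filter fun k => k % 2 = 0 ∧ (k ∈ S ∨ k ^ 2 ≤ x) with hT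
  set P3 : Finset ℕ := T.image fun k => q (k / 2) with hP3
  have hprime : ∀ p ∈ insert 2 (P1 ∪ P3), p.Prime := by
    intro p hp
    rcases mem_insert.1 hp with rfl | hp
    · exact Nat.prime_two
    rcases mem_union.1 hp with hp | hp
    · exact (mem_filter.1 hp).2.1
    · obtain ⟨k, -, rfl⟩ := mem_image.1 hp
      exact hq.pr _
  obtain ⟨s, hs2, hs1, hs3⟩ : ∃ s : ℕ → ℕ, s 2 = 1 ∧ (∀ p, (∀ m, p ≠ q m) → s p = r p) ∧
      (∀ m, 1 ≤ m → s (q m) = 2 * m) := by
    refine ⟨fun p => if p = 2 then 1 else if h : ∃ m, p = q m then 2 * Classical.choose h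
      else r p, by simp, ?_, ?_⟩
    · intro p hp
      have h2 : p ≠ 2 := fun h => hp 0 (by rw [h, hq.two])
      have h3 : ¬ ∃ m, p = q m := fun ⟨m, hm⟩ => hp m hm
      simp only [h2, if_false, h3, dif_neg, not_false_eq_true]
    · intro m hm
      have h2 : q m ≠ 2 := fun h => by
        have := hq.inj (h.trans hq.two.symm)
        omega
      have h3 : ∃ m', q m = q m' := ⟨m, rfl⟩
      have h4 : Classical.choose h3 = m := (hq.inj (Classical.choose_spec h3)).symm
      simp only [h2, if_false, h3, dif_pos]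
      rw [h4]
  obtain ⟨b₀, hb₀⟩ := LPF680.exists_crt_set _ hprime s
  have hpos1 : 0 < ∏ p ∈ P1, p := prod_pos fun p hp => (mem_filter.1 hp).2.1.pos
  have hpos3 : 0 < ∏ p ∈ P3, p := prod_pos fun p hp => by
    obtain ⟨k, -, rfl⟩ := mem_image.1 hp
    exact (hq.pr _).pos
  refine ⟨(∏ p ∈ P1, p) * (2 * ∏ p ∈ P3, p), b₀, by positivity, ?_, ?_⟩
  · have h1 : ∏ p ∈ P1, p ≤ 4 ^ x := by
      refine le_trans ?_ (primorial_le_four_pow x)
      unfold primorial
      refine prod_le_prod_of_subset_of_one_le' ?_ ?_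
      · intro p hp
        rw [hP1, mem_filter] at hp
        exact mem_filter.2 ⟨hp.1, hp.2.1⟩
      · intro p hp _
        exact (mem_filter.1 hp).2.one_lt.le
    have h3 : ∏ p ∈ P3, p ≤ (U ^ 2 + 1) ^ P3.card := by
      refine prod_le_pow_card _ _ _ ?_
      intro p hp
      obtain ⟨k, hk, rfl⟩ := mem_image.1 hp
      rw [hT, mem_filter, mem_Ioc] at hk
      obtain ⟨⟨hk0, hkU⟩, hk2, -⟩ := hk
      have h4 := hq.le (k / 2) (by omega)
      have h5 : 4 * (k / 2) ^ 2 = k ^ 2 := by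
        have h6 : 2 * (k / 2) = k := by omega
        calc 4 * (k / 2) ^ 2 = (2 * (k / 2)) ^ 2 := by ring
          _ = k ^ 2 := by rw [h6]
      have h7 : k ^ 2 ≤ U ^ 2 := Nat.pow_le_pow_left hkU 2
      show q (k / 2) ≤ U ^ 2 + 1
      omega
    have hc : P3.card ≤ 3 * x := by
      have h4 : P3.card ≤ T.card := card_image_le
      have h5 : T ⊆ S ∪ Ioc 0 x := by
        intro k hk
        rw [hT, mem_filter, mem_Ioc] at hk
        obtain ⟨⟨hk0, -⟩, -, hk | hk⟩ := hk
        · exact mem_union_left _ hk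
        · refine mem_union_right _ (mem_Ioc.2 ⟨hk0, ?_⟩)
          nlinarith
      have h6 := card_le_card h5
      have h7 := card_union_le S (Ioc 0 x)
      rw [Nat.card_Ioc] at h7
      omega
    have h8 : (U ^ 2 + 1) ^ P3.card ≤ (U ^ 2 + 1) ^ (3 * x) :=
      Nat.pow_le_pow_right (by positivity) hc
    gcongr
    exact h3.trans h8
  · intro n hn k hk1 hkU
    -- the key: a prime of the set which divides `k + b₀` divides `n + k`
    have key : ∀ p ∈ insert 2 (P1 ∪ P3), k % p = s p % p → p ∣ n + k := by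
      intro p hp hkp
      have hdvd : p ∣ (∏ p ∈ P1, p) * (2 * ∏ p ∈ P3, p) := by
        rcases mem_insert.1 hp with rfl | hp
        · exact Dvd.dvd.mul_left (Dvd.intro _ rfl) _
        rcases mem_union.1 hp with hp | hp
        · exact Dvd.dvd.mul_right (dvd_prod_of_mem _ hp) _
        · exact Dvd.dvd.mul_left (Dvd.dvd.mul_left (dvd_prod_of_mem _ hp) _) _
      have h1 : n ≡ b₀ [MOD p] := Nat.ModEq.of_dvd hdvd hn
      have h2 := hb₀ p hp k hkp
      have h3 : n + k ≡ b₀ + k [MOD p] := Nat.ModEq.add_right k h1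
      rw [add_comm b₀ k] at h3
      exact (Nat.modEq_zero_iff_dvd).1 (h3.trans ((Nat.modEq_zero_iff_dvd).2 h2))
    by_cases hodd : k % 2 = 0
    · by_cases hkS : k ∈ S ∨ k ^ 2 ≤ x
      · have hm : 1 ≤ k / 2 := by omega
        have hkT : k ∈ T := by
          rw [hT, mem_filter, mem_Ioc]
          exact ⟨⟨hk1, hkU⟩, hodd, hkS⟩
        have hmem : q (k / 2) ∈ insert 2 (P1 ∪ P3) :=
          mem_insert_of_mem (mem_union_right _ (mem_image_of_mem _ hkT))
        have h2k : 2 * (k / 2) = k := by omega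
        have h1 := key _ hmem (by rw [hs3 _ hm, h2k])
        have h2 := Nat.minFac_le_of_dvd (hq.pr _).two_le h1
        have h4 := hq.le (k / 2) hm
        have h5 : 4 * (k / 2) ^ 2 = k ^ 2 := by
          calc 4 * (k / 2) ^ 2 = (2 * (k / 2)) ^ 2 := by ring
            _ = k ^ 2 := by rw [h2k]
        omega
      · rw [not_or] at hkS
        obtain ⟨hk3, hk4⟩ := hkS
        rw [hSdef, mem_filter, not_and] at hk3
        have hk5 := hk3 (mem_Ioc.2 ⟨hk1, hkU⟩)
        push Not at hk5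
        obtain ⟨p, hp, hpx, hpq, hkp⟩ := hk5
        have hmem : p ∈ insert 2 (P1 ∪ P3) :=
          mem_insert_of_mem (mem_union_left _ (mem_filter.2 ⟨mem_range.2 (by omega), hp, hpq⟩))
        have h1 := key p hmem (by
          rw [hs1 p hpq, ← hkp, Nat.mod_mod])
        have h2 := Nat.minFac_le_of_dvd hp.two_le h1
        omega
    · have h1 := key 2 (mem_insert_self _ _) (by rw [hs2]; omega)
      have h2 := Nat.minFac_le_of_dvd (le_refl 2) h1
      have : 1 ≤ k ^ 2 := Nat.one_le_pow _ _ hk1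
      omega

end Pool.Agent.Lib.LPFR
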