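import Mathlib

/-!
# Reserved primes: definition (for the least prime factors of `n + k`, `1 ≤ k ≤ K`)
-/

namespace Pool.Agent.Lib.LPFR

/-- A sequence of different primes, `q 0 = 2`, `q m ≤ (2 m)² + 1` for `m ≥ 1`, and `q m > m² / 4` for
all large `m`. -/
structure Res (q : ℕ → ℕ) : Prop where
  pr : ∀ m, (q m).Prime
  inj : Function.Injective q
  two : q 0 = 2
  le : ∀ m, 1 ≤ m → q m ≤ 4 * m ^ 2 + 1
  ge : ∃ m₀ : ℕ, ∀ m, m₀ ≤ m → m ^ 2 < 4 * q m

end Pool.Agent.Lib.LPFR
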