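import Pool.Agent.Lib.LPFR.Defs
import Pool.Agent.Lib.LPF680.Own
import Pool.Agent.Lib.GapSieve.Presieve4

/-! The Erdős–Rankin presieve without the reserved primes (module of `LPFR`). -/

open Finset
open scoped Classical

namespace Pool.Agent.Lib.LPFR

private lemma tail (a : ℕ) (ha : 2 ≤ a) (I : Finset ℕ) (hI : ∀ m ∈ I, a ≤ m) :
    ∑ m ∈ I, 1 / (m : ℝ) ^ 2 ≤ (2 : ℝ) / (a : ℝ) := by
  have ha0 : (2 : ℝ) ≤ a := by exact_mod_cast ha
  have key : ∀ n : ℕ, ∑ m ∈ Ico a (a + n), 1 / (m : ℝ) ^ 2 ≤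
      1 / ((a : ℝ) - 1) - 1 / ((a : ℝ) + n - 1) := by
    intro n
    induction n with
    | zero => simp
    | succ n ih =>
      rw [← add_assoc, Finset.sum_Ico_succ_top (by omega)]
      have h1 : (0 : ℝ) < (a : ℝ) + n - 1 := by
        have : (0 : ℝ) ≤ n := Nat.cast_nonneg n
        linarith
      have h2 : 1 / ((a + n : ℕ) : ℝ) ^ 2 ≤ 1 / ((a : ℝ) + n - 1) - 1 / ((a : ℝ) + n) := by
        push_cast
        rw [div_sub_div _ _ h1.ne' (by linarith)]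
        rw [div_le_div_iff₀ (by positivity) (by nlinarith)]
        nlinarith
      push_cast
      have h3 : (a : ℝ) + (n + 1) - 1 = (a : ℝ) + n := by ring
      rw [h3]
      push_cast at h2
      linarith
  have hsub : I ⊆ Ico a (a + (I.sup id + 1)) := by
    intro m hm
    have h1 := Finset.le_sup (f := id) hm
    simp only [id] at h1
    rw [mem_Ico]
    exact ⟨hI m hm, by omega⟩
  have h1 : ∑ m ∈ I, 1 / (m : ℝ) ^ 2 ≤ ∑ m ∈ Ico a (a + (I.sup id + 1)), 1 / (m : ℝ) ^ 2 :=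
    Finset.sum_le_sum_of_subset_of_nonneg hsub (fun _ _ _ => by positivity)
  have h2 := key (I.sup id + 1)
  have h3 : (0 : ℝ) ≤ 1 / ((a : ℝ) + ((I.sup id + 1 : ℕ) : ℝ) - 1) := by
    have : (0 : ℝ) ≤ ((I.sup id + 1 : ℕ) : ℝ) := Nat.cast_nonneg _
    apply div_nonneg zero_le_one
    linarith
  have h4 : 1 / ((a : ℝ) - 1) ≤ (2 : ℝ) / (a : ℝ) := by
    rw [div_le_div_iff₀ (by linarith) (by linarith)]
    linarith
  linarith

private lemma sum_q {q : ℕ → ℕ} {m₀ : ℕ} (hm : ∀ m, m₀ ≤ m → m ^ 2 < 4 * q m) (a : ℕ)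
    (ha : 2 ≤ a) (hma : m₀ ≤ a) (I : Finset ℕ) (hI : ∀ m ∈ I, a ≤ m) :
    ∑ m ∈ I, 1 / (q m : ℝ) ≤ (8 : ℝ) / (a : ℝ) := by
  have h1 : ∑ m ∈ I, 1 / (q m : ℝ) ≤ ∑ m ∈ I, 4 * (1 / (m : ℝ) ^ 2) := by
    refine sum_le_sum fun m hm' => ?_
    have h2 := hm m (hma.trans (hI m hm'))
    have h3 : ((m : ℝ)) ^ 2 < 4 * (q m : ℝ) := by exact_mod_cast h2
    have h4 : (0 : ℝ) < m := by
      have := hI m hm'
      exact_mod_cast (by omega : 0 < m)
    have h5 : (0 : ℝ) < q m := by nlinarith [sq_nonneg (m : ℝ)]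
    rw [mul_one_div, div_le_div_iff₀ h5 (by positivity)]
    linarith
  rw [← Finset.mul_sum] at h1
  have h2 := tail a ha I hI
  have h3 : 4 * (2 / (a : ℝ)) = 8 / a := by ring
  linarith

/-- the product over reserved primes -/
private lemma prod_ge {q : ℕ → ℕ} (hq : Res q) : ∃ c₀ : ℝ, 0 < c₀ ∧ c₀ ≤ 1 ∧ ∀ E : Finset ℕ,
    (∀ p ∈ E, ∃ m, p = q m) → c₀ ≤ ∏ p ∈ E, (1 - 1 / (p : ℝ)) := by
  obtain ⟨m₀, hm₀⟩ := hq.ge
  set a := max m₀ 16 with ha
  refine ⟨(1 / 2) ^ a * (1 / 2), by positivity, ?_, fun E hE => ?_⟩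
  · have : ((1 : ℝ) / 2) ^ a ≤ 1 := pow_le_one₀ (by norm_num) (by norm_num)
    linarith
  have hnn : ∀ m, (2 : ℝ) ≤ q m := fun m => by exact_mod_cast (hq.pr m).two_le
  have hle : ∀ m, 1 / (q m : ℝ) ≤ 1 / 2 := fun m =>
    one_div_le_one_div_of_le (by norm_num) (hnn m)
  have hpos : ∀ m, 0 ≤ 1 / (q m : ℝ) := fun m => by positivity
  obtain ⟨I, hI⟩ : ∃ I : Finset ℕ, E = I.image q := by
    refine ⟨E.preimage q hq.inj.injOn, ?_⟩
    rw [Finset.image_preimage, Finset.filter_true_of_mem]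
    intro p hp
    obtain ⟨m, hm⟩ := hE p hp
    exact ⟨m, hm.symm⟩
  rw [hI, Finset.prod_image (fun x _ y _ h => hq.inj h),
    ← Finset.prod_filter_mul_prod_filter_not I (fun m => m < a)]
  have h1 : ((1 : ℝ) / 2) ^ a ≤ ∏ m ∈ I.filter (fun m => m < a), (1 - 1 / (q m : ℝ)) := by
    have h2 : (I.filter (fun m => m < a)).card ≤ a := by
      calc (I.filter (fun m => m < a)).card ≤ (range a).card :=
            card_le_card (fun m hm => mem_range.2 (mem_filter.1 hm).2)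
        _ = a := card_range a
    calc ((1 : ℝ) / 2) ^ a ≤ (1 / 2) ^ (I.filter (fun m => m < a)).card :=
          pow_le_pow_of_le_one (by norm_num) (by norm_num) h2
      _ = ∏ m ∈ I.filter (fun m => m < a), (1 / 2 : ℝ) := by rw [prod_const]
      _ ≤ _ := prod_le_prod (fun _ _ => by norm_num) (fun m _ => by linarith [hle m])
  have h3 : (1 : ℝ) / 2 ≤ ∏ m ∈ I.filter (fun m => ¬ m < a), (1 - 1 / (q m : ℝ)) := by
    have h4 := LPF680.weier (I.filter (fun m => ¬ m < a)) (fun m => 1 / (q m : ℝ))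
      (fun m _ => hpos m) (fun m _ => (hle m).trans (by norm_num))
    have h5 := sum_q hm₀ a (le_trans (by norm_num) (le_max_right _ _)) (le_max_left _ _)
      (I.filter (fun m => ¬ m < a)) (fun m hm => not_lt.1 (mem_filter.1 hm).2)
    have h6 : (8 : ℝ) / a ≤ 1 / 2 := by
      have h7 : (16 : ℝ) ≤ a := by exact_mod_cast (le_max_right m₀ 16)
      rw [div_le_div_iff₀ (by linarith) (by norm_num)]
      linarith
    linarith
  exact mul_le_mul h1 h3 (by norm_num) (prod_nonneg fun m _ => by linarith [hle m])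

private lemma card_class (U p a : ℕ) :
    ((Ioc 0 U).filter fun k => k % p = a).card ≤ U / p + 1 := by
  calc ((Ioc 0 U).filter fun k => k % p = a).card ≤ (range (U / p + 1)).card := by
        refine Finset.card_le_card_of_injOn (fun k => k / p) ?_ ?_
        · intro k hk
          rw [Finset.mem_coe, mem_filter, mem_Ioc] at hk
          rw [Finset.mem_coe, mem_range]
          exact Nat.lt_succ_of_le (Nat.div_le_div_right hk.1.2)
        · intro k hk k' hk' h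
          rw [Finset.mem_coe, mem_filter] at hk hk'
          have h1 := Nat.div_add_mod k p
          have h2 := Nat.div_add_mod k' p
          simp only at h
          rw [← h1, ← h2, h, hk.2, hk'.2]
    _ = U / p + 1 := card_range _

private lemma ev (m₀ : ℕ) : ∀ᶠ x : ℕ in Filter.atTop,
    1 ≤ Real.log (Real.log (Real.log x)) ∧
    (48 * Real.log x ^ 2 + 3 * m₀ + 6) ^ 2 ≤ Real.exp (Real.sqrt (Real.log x)) - 1 ∧
    (m₀ : ℝ) + 2 * Real.sqrt x + 2 ≤ x / 2 := by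
  have hx : Filter.Tendsto (fun x : ℕ => (x : ℝ)) Filter.atTop Filter.atTop :=
    tendsto_natCast_atTop_atTop
  have hL : Filter.Tendsto (fun x : ℕ => Real.log (x : ℝ)) Filter.atTop Filter.atTop :=
    Real.tendsto_log_atTop.comp hx
  have hL3 : Filter.Tendsto (fun x : ℕ => Real.log (Real.log (Real.log (x : ℝ))))
      Filter.atTop Filter.atTop := Real.tendsto_log_atTop.comp (Real.tendsto_log_atTop.comp hL)
  have hs : Filter.Tendsto (fun x : ℕ => Real.sqrt (Real.log (x : ℝ))) Filter.atTop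
      Filter.atTop := Real.tendsto_sqrt_atTop.comp hL
  have hexp : ∀ᶠ s : ℝ in Filter.atTop,
      (48 * s ^ 4 + 3 * m₀ + 6) ^ 2 ≤ Real.exp s - 1 := by
    have h1 := (Real.isLittleO_pow_exp_atTop (n := 9)).bound (show (0 : ℝ) < 1 by norm_num)
    filter_upwards [h1, Filter.eventually_ge_atTop (54 + 3 * (m₀ : ℝ)),
      Filter.eventually_ge_atTop (2 * (54 + 3 * (m₀ : ℝ)) ^ 2)] with s h2 h3 h4
    have hm : (0 : ℝ) ≤ m₀ := Nat.cast_nonneg _
    have hs1 : (1 : ℝ) ≤ s := by linarith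
    rw [Real.norm_of_nonneg (by positivity), Real.norm_of_nonneg (Real.exp_pos s).le, one_mul]
      at h2
    have h5 : (1 : ℝ) ≤ s ^ 4 := one_le_pow₀ hs1
    have h6 : 48 * s ^ 4 + 3 * m₀ + 6 ≤ (54 + 3 * (m₀ : ℝ)) * s ^ 4 := by nlinarith
    have h7 : (48 * s ^ 4 + 3 * m₀ + 6) ^ 2 ≤ ((54 + 3 * (m₀ : ℝ)) * s ^ 4) ^ 2 :=
      pow_le_pow_left₀ (by positivity) h6 2
    have h8 : ((54 + 3 * (m₀ : ℝ)) * s ^ 4) ^ 2 = (54 + 3 * (m₀ : ℝ)) ^ 2 * s ^ 8 := by ring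
    have h9 : (1 : ℝ) ≤ s ^ 8 := one_le_pow₀ hs1
    have h10 : 2 * (54 + 3 * (m₀ : ℝ)) ^ 2 * s ^ 8 ≤ s * s ^ 8 :=
      mul_le_mul_of_nonneg_right h4 (by positivity)
    have h11 : s * s ^ 8 = s ^ 9 := by ring
    have h12 : (1 : ℝ) ≤ (54 + 3 * (m₀ : ℝ)) ^ 2 * s ^ 8 := by
      have : (1 : ℝ) ≤ (54 + 3 * (m₀ : ℝ)) ^ 2 := by nlinarith
      nlinarith
    rw [h8] at h7
    linarith
  have hsq : Filter.Tendsto (fun x : ℕ => Real.sqrt (x : ℝ)) Filter.atTop Filter.atTop :=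
    Real.tendsto_sqrt_atTop.comp hx
  filter_upwards [hL3.eventually_ge_atTop 1, hs.eventually hexp,
    hsq.eventually_ge_atTop (6 + (m₀ : ℝ)), hL.eventually_ge_atTop 0] with x h1 h2 h3 h4
  refine ⟨h1, ?_, ?_⟩
  · have h5 : Real.sqrt (Real.log x) ^ 4 = Real.log x ^ 2 := by
      rw [show Real.sqrt (Real.log x) ^ 4 = (Real.sqrt (Real.log x) ^ 2) ^ 2 by ring,
        Real.sq_sqrt h4]
    rw [h5] at h2
    exact h2
  · have h6 : Real.sqrt x ^ 2 = x := Real.sq_sqrt (Nat.cast_nonneg x)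
    have hm : (0 : ℝ) ≤ m₀ := Nat.cast_nonneg _
    nlinarith

/-- The presieve without the reserved primes. -/
theorem sieve {q : ℕ → ℕ} (hq : Res q) : ∃ c : ℝ, 0 < c ∧ ∃ x₀ : ℕ, ∀ x : ℕ, x₀ ≤ x →
    ∀ U : ℕ, (U : ℝ) ≤ c * (x * Real.log x ^ 2 * Real.log (Real.log (Real.log x)) /
      Real.log (Real.log x) ^ 2) →
    ∃ r : ℕ → ℕ, ((Ioc 0 U).filter fun k =>
      ∀ p : ℕ, p.Prime → p ≤ x → (∀ m, p ≠ q m) → k % p ≠ r p).card ≤ 2 * x := by
  obtain ⟨c₁, hc₁, x₁, h4⟩ := Presieve.presieve4 1 one_pos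
  obtain ⟨c₀, hc₀, hc₀1, hprod⟩ := prod_ge hq
  obtain ⟨m₀, hm₀⟩ := hq.ge
  obtain ⟨x₂, hx₂⟩ := Filter.eventually_atTop.1 (ev m₀)
  refine ⟨min (c₁ * c₀) 1, by positivity, max x₁ (max x₂ 1), ?_⟩
  intro x hx U hU
  have hx1 : x₁ ≤ x := (le_max_left _ _).trans hx
  have hx2 : x₂ ≤ x := (le_max_left _ _).trans ((le_max_right _ _).trans hx)
  have hx3 : 1 ≤ x := (le_max_right _ _).trans ((le_max_right _ _).trans hx)
  obtain ⟨e1, e2, e3⟩ := hx₂ x hx2
  obtain ⟨L, hL⟩ : ∃ L, L = Real.log (x : ℝ) := ⟨_, rfl⟩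
  obtain ⟨LL, hLL⟩ : ∃ LL, LL = Real.log L := ⟨_, rfl⟩
  obtain ⟨L3, hL3⟩ : ∃ L3, L3 = Real.log LL := ⟨_, rfl⟩
  rw [← hL, ← hLL, ← hL3] at hU e1
  rw [← hL] at e2
  have hxr : (1 : ℝ) ≤ x := by exact_mod_cast hx3
  have hL0 : 0 ≤ L := by rw [hL]; exact Real.log_nonneg hxr
  have hLL1 : 1 ≤ LL := by
    by_contra h
    push Not at h
    have h5 : L3 < 1 := by
      rcases le_or_gt LL 0 with h0 | h0
      · rcases lt_or_ge LL (-1) with h6 | h6
        · -- impossible as `LL = log L`, `L ≥ 0`; use `log |LL|`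
          exfalso
          have h7 : LL ≤ 0 := h0
          have h8 : L < 1 := by
            by_contra h9
            push Not at h9
            have := Real.log_nonneg h9
            rw [← hLL] at this
            linarith
          have h9 : (48 * L ^ 2 + 3 * (m₀ : ℝ) + 6) ^ 2 ≤ Real.exp (Real.sqrt L) - 1 := e2
          have h10 : Real.sqrt L ≤ 1 := Real.sqrt_le_one.2 h8.le
          have h11 : Real.exp (Real.sqrt L) ≤ Real.exp 1 := Real.exp_le_exp.2 h10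
          have h12 := Real.exp_one_lt_d9
          have hm : (0 : ℝ) ≤ m₀ := Nat.cast_nonneg _
          have h13 : (0 : ℝ) ≤ L ^ 2 := sq_nonneg L
          nlinarith [mul_nonneg h13 hm]
        · rw [hL3, ← Real.log_abs]
          have h7 : |LL| ≤ 1 := abs_le.2 ⟨h6, by linarith⟩
          have h8 : Real.log |LL| ≤ 0 := Real.log_nonpos (abs_nonneg _) h7
          linarith
      · rw [hL3]
        have := Real.log_lt_sub_one_of_pos h0 (by linarith)
        linarith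
    linarith
  have hL31 : L3 ≤ LL ^ 2 := by
    have h5 := Real.log_le_sub_one_of_pos (show 0 < LL by linarith)
    rw [← hL3] at h5
    nlinarith
  -- the bound `U ≤ x L²`
  have hratio : L3 / LL ^ 2 ≤ 1 := by
    rw [div_le_one (by positivity)]
    exact hL31
  have hbig : 0 ≤ (x : ℝ) * L ^ 2 * L3 / LL ^ 2 := by positivity
  have hUx : (U : ℝ) ≤ x * L ^ 2 := by
    refine hU.trans ?_
    calc min (c₁ * c₀) 1 * ((x : ℝ) * L ^ 2 * L3 / LL ^ 2) ≤ 1 * ((x : ℝ) * L ^ 2 * L3 / LL ^ 2) :=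
          mul_le_mul_of_nonneg_right (min_le_right _ _) hbig
      _ = (x : ℝ) * L ^ 2 * (L3 / LL ^ 2) := by ring
      _ ≤ (x : ℝ) * L ^ 2 * 1 := mul_le_mul_of_nonneg_left hratio (by positivity)
      _ = (x : ℝ) * L ^ 2 := mul_one _
  -- the small reserved primes
  obtain ⟨w, hw⟩ : ∃ w, w = ⌊Real.exp (Real.sqrt L)⌋₊ := ⟨_, rfl⟩
  obtain ⟨E, hE⟩ : ∃ E : Finset ℕ, E = (Ioc 0 w).filter (fun p => ∃ m, p = q m) := ⟨_, rfl⟩
  have hEr : ∀ p ∈ E, ∃ m, p = q m := by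
    intro p hp
    rw [hE, mem_filter] at hp
    exact hp.2
  have hEp : ∀ p ∈ E, p.Prime := by
    intro p hp
    obtain ⟨m, rfl⟩ := hEr p hp
    exact hq.pr m
  have hEc : (E.card : ℝ) ≤ Real.exp (Real.sqrt L) := by
    have h5 : E.card ≤ w := by
      rw [hE]
      refine (card_filter_le _ _).trans ?_
      rw [Nat.card_Ioc, Nat.sub_zero]
    have h6 : (w : ℝ) ≤ Real.exp (Real.sqrt L) := by
      rw [hw]
      exact Nat.floor_le (Real.exp_pos _).le
    have h7 : (E.card : ℝ) ≤ w := by exact_mod_cast h5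
    exact h7.trans h6
  have hUE : (U : ℝ) ≤ c₁ * x * L ^ 2 * L3 / LL ^ 2 * ∏ p ∈ E, (1 - 1 / (p : ℝ)) := by
    refine hU.trans ?_
    calc min (c₁ * c₀) 1 * ((x : ℝ) * L ^ 2 * L3 / LL ^ 2)
        ≤ (c₁ * c₀) * ((x : ℝ) * L ^ 2 * L3 / LL ^ 2) :=
          mul_le_mul_of_nonneg_right (min_le_left _ _) hbig
      _ = c₁ * x * L ^ 2 * L3 / LL ^ 2 * c₀ := by ring
      _ ≤ _ := mul_le_mul_of_nonneg_left (hprod E hEr) (by positivity)
  rw [hL, hLL, hL, hL3, hLL, hL] at hUE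
  rw [hL] at hEc
  obtain ⟨r, hr⟩ := h4 x hx1 E hEp hEc U hUE
  refine ⟨r, ?_⟩
  -- the large reserved primes
  obtain ⟨R, hR⟩ : ∃ R : Finset ℕ, R = (Ioc w x).filter (fun p => ∃ m, p = q m) := ⟨_, rfl⟩
  have hcov : ((Ioc 0 U).filter fun k =>
      ∀ p : ℕ, p.Prime → p ≤ x → (∀ m, p ≠ q m) → k % p ≠ r p) ⊆
      ((Ioc 0 U).filter fun n => ∀ p : ℕ, p.Prime → p ≤ x → p ∉ E → n % p ≠ r p) ∪
        R.biUnion (fun p => (Ioc 0 U).filter fun k => k % p = r p) := by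
    intro k hk
    rw [mem_filter] at hk
    rw [mem_union]
    by_cases h : ∃ p ∈ R, k % p = r p
    · right
      obtain ⟨p, hp, h5⟩ := h
      rw [mem_biUnion]
      exact ⟨p, hp, mem_filter.2 ⟨hk.1, h5⟩⟩
    · left
      push Not at h
      refine mem_filter.2 ⟨hk.1, fun p hp hpx hpE => ?_⟩
      by_cases h5 : ∃ m, p = q m
      · apply h p
        rw [hR, mem_filter, mem_Ioc]
        refine ⟨⟨?_, hpx⟩, h5⟩
        by_contra h6
        push Not at h6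
        apply hpE
        rw [hE, mem_filter, mem_Ioc]
        exact ⟨⟨hp.pos, h6⟩, h5⟩
      · push Not at h5
        exact hk.2 p hp hpx h5
  have hcard : (((Ioc 0 U).filter fun k =>
      ∀ p : ℕ, p.Prime → p ≤ x → (∀ m, p ≠ q m) → k % p ≠ r p).card : ℝ) ≤
      1 * x + ∑ p ∈ R, ((U : ℝ) * (1 / (p : ℝ)) + 1) := by
    have h5 : ((Ioc 0 U).filter fun k =>
      ∀ p : ℕ, p.Prime → p ≤ x → (∀ m, p ≠ q m) → k % p ≠ r p).card ≤
      ((Ioc 0 U).filter fun n => ∀ p : ℕ, p.Prime → p ≤ x → p ∉ E → n % p ≠ r p).card +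
        ∑ p ∈ R, (U / p + 1) := by
      refine (card_le_card hcov).trans ((card_union_le _ _).trans ?_)
      refine Nat.add_le_add_left (card_biUnion_le.trans (sum_le_sum fun p _ => ?_)) _
      exact card_class U p (r p)
    have h6 : (((Ioc 0 U).filter fun k =>
      ∀ p : ℕ, p.Prime → p ≤ x → (∀ m, p ≠ q m) → k % p ≠ r p).card : ℝ) ≤
      (((Ioc 0 U).filter fun n => ∀ p : ℕ, p.Prime → p ≤ x → p ∉ E → n % p ≠ r p).card : ℝ) +
        ∑ p ∈ R, (((U / p : ℕ) : ℝ) + 1) := by exact_mod_cast h5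
    refine h6.trans (add_le_add hr (sum_le_sum fun p _ => ?_))
    have h7 : ((U / p : ℕ) : ℝ) ≤ (U : ℝ) / p := Nat.cast_div_le
    have h8 : (U : ℝ) * (1 / (p : ℝ)) = (U : ℝ) / p := by ring
    rw [h8]
    linarith
  -- the indices
  obtain ⟨I, hI⟩ : ∃ I : Finset ℕ, R = I.image q := by
    refine ⟨R.preimage q hq.inj.injOn, ?_⟩
    rw [Finset.image_preimage, Finset.filter_true_of_mem]
    intro p hp
    rw [hR, mem_filter] at hp
    obtain ⟨m, hm⟩ := hp.2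
    exact ⟨m, hm.symm⟩
  have hImem : ∀ m ∈ I, w < q m ∧ q m ≤ x := by
    intro m hm
    have h5 : q m ∈ R := by
      rw [hI]
      exact mem_image_of_mem q hm
    rw [hR, mem_filter, mem_Ioc] at h5
    exact h5.1
  obtain ⟨a, ha⟩ : ∃ a, a = Nat.sqrt w / 3 := ⟨_, rfl⟩
  have hwr : Real.exp (Real.sqrt L) - 1 ≤ w := by
    rw [hw]
    exact (Nat.sub_one_lt_floor _).le
  have hm0r : (0 : ℝ) ≤ m₀ := Nat.cast_nonneg _
  have hsw : 48 * L ^ 2 + 3 * (m₀ : ℝ) + 5 ≤ Nat.sqrt w := by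
    have h5 : (48 * L ^ 2 + 3 * (m₀ : ℝ) + 6) ^ 2 ≤ w := e2.trans hwr
    have h6 : (w : ℝ) < ((Nat.sqrt w : ℝ) + 1) ^ 2 := by
      have := Nat.lt_succ_sqrt w
      have h7 : w < (Nat.sqrt w + 1) * (Nat.sqrt w + 1) := this
      have h8 : (w : ℝ) < ((Nat.sqrt w : ℝ) + 1) * ((Nat.sqrt w : ℝ) + 1) := by exact_mod_cast h7
      rw [pow_two]
      exact h8
    have h7 := lt_of_pow_lt_pow_left₀ 2 (by positivity) (lt_of_le_of_lt h5 h6)
    linarith
  have har : 16 * L ^ 2 + (m₀ : ℝ) + 1 ≤ a := by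
    have h5 : Nat.sqrt w ≤ 3 * a + 2 := by omega
    have h6 : (Nat.sqrt w : ℝ) ≤ 3 * a + 2 := by exact_mod_cast h5
    linarith
  have ham : m₀ + 1 ≤ a := by
    have h5 : ((m₀ + 1 : ℕ) : ℝ) ≤ a := by
      push_cast
      nlinarith [sq_nonneg L]
    exact_mod_cast h5
  have hIa : ∀ m ∈ I, a + 1 ≤ m := by
    intro m hm
    by_contra h
    push Not at h
    have h5 : m ≤ a := by omega
    have h6 := (hImem m hm).1
    have h7 : 3 * m ≤ Nat.sqrt w := by omega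
    have h8 : (3 * m) * (3 * m) ≤ w := (Nat.mul_le_mul h7 h7).trans (Nat.sqrt_le w)
    have hw2 : 2 ≤ w := by
      have h9 : (2 : ℝ) ≤ w := by
        have : (6 : ℝ) ^ 2 ≤ (48 * L ^ 2 + 3 * (m₀ : ℝ) + 6) ^ 2 :=
          pow_le_pow_left₀ (by norm_num) (by nlinarith [sq_nonneg L]) 2
        linarith
      exact_mod_cast h9
    rcases Nat.eq_zero_or_pos m with h9 | h9
    · rw [h9, hq.two] at h6
      omega
    · have h10 := hq.le m h9
      nlinarith
  have hs1 : ∑ p ∈ R, 1 / (p : ℝ) ≤ 8 / ((a + 1 : ℕ) : ℝ) := by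
    rw [hI, Finset.sum_image (fun x _ y _ h => hq.inj h)]
    exact sum_q hm₀ (a + 1) (by omega) (by omega) I hIa
  have hRc : (R.card : ℝ) ≤ m₀ + 2 * Real.sqrt x + 2 := by
    have h5 : R.card = I.card := by
      rw [hI]
      exact card_image_of_injective I hq.inj
    have h6 : I ⊆ range (2 * (Nat.sqrt x + 1)) := by
      intro m hm
      rw [mem_range]
      by_contra h
      push Not at h
      have h7 := hm₀ m (by have := hIa m hm; omega)
      have h8 := (hImem m hm).2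
      have h9 : x < (Nat.sqrt x + 1) * (Nat.sqrt x + 1) := Nat.lt_succ_sqrt x
      nlinarith
    have h7 := card_le_card h6
    rw [card_range] at h7
    rw [h5]
    have h8 : (I.card : ℝ) ≤ 2 * ((Nat.sqrt x : ℝ) + 1) := by exact_mod_cast h7
    have h9 : (Nat.sqrt x : ℝ) ≤ Real.sqrt x := Real.nat_sqrt_le_real_sqrt
    linarith
  have hmain : ∑ p ∈ R, ((U : ℝ) * (1 / (p : ℝ)) + 1) ≤ x := by
    rw [sum_add_distrib, ← Finset.mul_sum, sum_const, nsmul_eq_mul, mul_one]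
    have h5 : (U : ℝ) * ∑ p ∈ R, 1 / (p : ℝ) ≤ x / 2 := by
      have h6 : (U : ℝ) * ∑ p ∈ R, 1 / (p : ℝ) ≤ (x * L ^ 2) * (8 / ((a + 1 : ℕ) : ℝ)) :=
        mul_le_mul hUx hs1 (sum_nonneg fun p _ => by positivity) (by positivity)
      refine h6.trans ?_
      have h7 : (0 : ℝ) < ((a + 1 : ℕ) : ℝ) := by positivity
      have h8 : 16 * L ^ 2 ≤ ((a + 1 : ℕ) : ℝ) := by
        push_cast
        linarith
      rw [mul_div_assoc', div_le_div_iff₀ h7 (by norm_num)]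
      have h9 : (x : ℝ) * (16 * L ^ 2) ≤ x * ((a + 1 : ℕ) : ℝ) :=
        mul_le_mul_of_nonneg_left h8 (by positivity)
      linarith
    linarith
  have hfin : (((Ioc 0 U).filter fun k =>
      ∀ p : ℕ, p.Prime → p ≤ x → (∀ m, p ≠ q m) → k % p ≠ r p).card : ℝ) ≤
      ((2 * x : ℕ) : ℝ) := by
    push_cast
    linarith
  exact_mod_cast hfin

end Pool.Agent.Lib.LPFR
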