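import Pool.Agent.Lib.LPFR.Seq
import Pool.Agent.Lib.LPFR.Sieve
import Pool.Agent.Lib.LPFR.Crt
import Pool.Agent.Lib.LPFR.Asy

/-! The number of `n ≤ X` in the residue class (module of `LPFR`). -/

open Finset
open scoped Classical

namespace Pool.Agent.Lib.LPFR

private lemma class_card (N M b : ℕ) (hM : 0 < M) :
    N / M ≤ ((Icc 1 N).filter fun n => n % M = b % M).card := by
  obtain ⟨t, ht1, htM, htb⟩ : ∃ t, 1 ≤ t ∧ t ≤ M ∧ t % M = b % M := by
    rcases Nat.eq_zero_or_pos (b % M) with h | h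
    · exact ⟨M, hM, le_rfl, by rw [Nat.mod_self, h]⟩
    · exact ⟨b % M, h, (Nat.mod_lt _ hM).le, Nat.mod_mod _ _⟩
  calc N / M = (range (N / M)).card := (card_range _).symm
    _ ≤ _ := by
      refine Finset.card_le_card_of_injOn (fun j => j * M + t) ?_ ?_
      · intro j hj
        rw [Finset.mem_coe, mem_range] at hj
        rw [Finset.mem_coe, mem_filter, mem_Icc]
        refine ⟨⟨by simp only; omega, ?_⟩, ?_⟩
        · have h1 : (j + 1) * M ≤ N := by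
            calc (j + 1) * M ≤ (N / M) * M := Nat.mul_le_mul_right _ hj
              _ ≤ N := Nat.div_mul_le_self N M
          simp only
          nlinarith
        · simp only
          rw [Nat.mul_add_mod_self_right, htb]
      · intro j _ j' _ h
        simp only at h
        exact Nat.eq_of_mul_eq_mul_right hM (by omega)

theorem main (ε : ℝ) (hε : 0 < ε) : ∃ c X₀ : ℝ, 0 < c ∧ ∀ X : ℝ, X₀ ≤ X →
    X ^ (1 - ε) ≤ (((Icc 1 ⌊X⌋₊).filter fun n : ℕ => ∀ k : ℕ, 1 ≤ k →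
      (k : ℝ) ≤ c * (Real.log X * Real.log (Real.log X) *
        Real.log (Real.log (Real.log (Real.log X))) / Real.log (Real.log (Real.log X)) ^ 2) →
      (n + k).minFac ≤ k ^ 2 + 1).card : ℝ) := by
  obtain ⟨q, hq⟩ := exists_res
  obtain ⟨c, hc, x₀, hs⟩ := sieve hq
  obtain ⟨e, he⟩ : ∃ e, e = min ε 1 := ⟨_, rfl⟩
  have he0 : 0 < e := by rw [he]; exact lt_min hε one_pos
  have he1 : e ≤ 1 := by rw [he]; exact min_le_right _ _
  have heε : e ≤ ε := by rw [he]; exact min_le_left _ _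
  obtain ⟨c', X₀, hc', ha⟩ := asy c hc x₀ e he0 (by linarith)
  refine ⟨c', X₀, hc', fun X hX => ?_⟩
  obtain ⟨hX1, x, U, hx0, hx1, hU, hcU, hM, hlast⟩ := ha X hX
  obtain ⟨r, hr⟩ := hs x hx0 U hU
  obtain ⟨M, b, hM0, hMle, hn⟩ := crt hq hx1 r hr
  have hX0 : 0 < X := by linarith
  have hMX : (M : ℝ) ≤ X ^ (e / 2) := by
    refine le_trans ?_ hM
    exact_mod_cast hMle
  have hMr : (1 : ℝ) ≤ M := by exact_mod_cast hM0
  have h1 : (((⌊X⌋₊ / M : ℕ) : ℝ)) ≤ (((Icc 1 ⌊X⌋₊).filter fun n : ℕ => ∀ k : ℕ, 1 ≤ k →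
      (k : ℝ) ≤ c' * (Real.log X * Real.log (Real.log X) *
        Real.log (Real.log (Real.log (Real.log X))) / Real.log (Real.log (Real.log X)) ^ 2) →
      (n + k).minFac ≤ k ^ 2 + 1).card : ℝ) := by
    have h2 := class_card ⌊X⌋₊ M b hM0
    have h3 := card_le_card (show ((Icc 1 ⌊X⌋₊).filter fun n => n % M = b % M) ⊆
      ((Icc 1 ⌊X⌋₊).filter fun n : ℕ => ∀ k : ℕ, 1 ≤ k →
      (k : ℝ) ≤ c' * (Real.log X * Real.log (Real.log X) *
        Real.log (Real.log (Real.log (Real.log X))) / Real.log (Real.log (Real.log X)) ^ 2) →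
      (n + k).minFac ≤ k ^ 2 + 1) from fun n hn' => by
        rw [mem_filter] at hn' ⊢
        refine ⟨hn'.1, fun k hk1 hk => hn n hn'.2 k hk1 ?_⟩
        have h4 : (k : ℝ) ≤ U := hk.trans hcU
        exact_mod_cast h4)
    exact_mod_cast h2.trans h3
  refine le_trans ?_ h1
  have h2 : X ^ (1 - ε) ≤ X ^ (1 - e) := Real.rpow_le_rpow_of_exponent_le hX1 (by linarith)
  have h3 : X ^ (1 - e / 2) ≤ X / M := by
    rw [Real.rpow_sub hX0, Real.rpow_one]
    exact div_le_div_of_nonneg_left hX0.le (by linarith) hMX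
  have h4 : X / M - 2 ≤ ((⌊X⌋₊ / M : ℕ) : ℝ) := by
    have h5 : ⌊X⌋₊ < M * (⌊X⌋₊ / M + 1) := Nat.lt_mul_div_succ _ hM0
    have h6 : (⌊X⌋₊ : ℝ) < M * (((⌊X⌋₊ / M : ℕ) : ℝ) + 1) := by exact_mod_cast h5
    have h7 : X < (⌊X⌋₊ : ℝ) + 1 := Nat.lt_floor_add_one X
    have h8 : X < M * (((⌊X⌋₊ / M : ℕ) : ℝ) + 1) + 1 := by linarith
    have h9 : X / M ≤ (((⌊X⌋₊ / M : ℕ) : ℝ) + 1) + 1 := by
      rw [div_le_iff₀ (by linarith)]
      nlinarith
    linarith
  linarith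

end Pool.Agent.Lib.LPFR
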