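import Pool.Agent.Lib.LPFR.Defs
import Pool.Agent.Lib.LPF680.Own

namespace Pool.Agent.Lib.LPFR

private lemma exists_J : ∃ J : ℕ, (∀ j, J ≤ j → Nat.count Nat.Prime (4 ^ j + 1) + 2 ^ j + 1 ≤
    Nat.count Nat.Prime (4 ^ (j + 1) + 1)) ∧ 2 ^ J ≤ Nat.count Nat.Prime (4 ^ J + 1) := by
  obtain ⟨y₀, hy₀⟩ := LPF680.many_primes
  have step : ∀ j, y₀ ≤ j → Nat.count Nat.Prime (4 ^ j + 1) + 2 ^ j + 1 ≤
      Nat.count Nat.Prime (4 ^ (j + 1) + 1) := by
    intro j hj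
    have h1 : y₀ ≤ 4 ^ j := hj.trans (Nat.lt_pow_self (by norm_num)).le
    have h2 := hy₀ (4 ^ j) h1
    have h3 : Nat.sqrt (4 ^ j) = 2 ^ j := by
      rw [show (4 : ℕ) ^ j = (2 ^ j) * (2 ^ j) by rw [← mul_pow]; norm_num, Nat.sqrt_eq]
    rw [h3, show 4 * 4 ^ j = 4 ^ (j + 1) by ring] at h2
    exact h2
  have sum : ∀ i, 2 ^ (y₀ + i) + i ≤ Nat.count Nat.Prime (4 ^ (y₀ + i) + 1) + 2 ^ y₀ := by
    intro i
    induction i with
    | zero => simp
    | succ i ih =>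
      have h1 := step (y₀ + i) (by omega)
      have e : 2 ^ (y₀ + (i + 1)) = 2 ^ (y₀ + i) + 2 ^ (y₀ + i) := by
        rw [← add_assoc, pow_succ]; ring
      have e2 : y₀ + (i + 1) = y₀ + i + 1 := by omega
      rw [e]
      rw [e2]
      omega
  refine ⟨y₀ + 2 ^ y₀, fun j hj => step j ((Nat.le_add_right _ _).trans hj), ?_⟩
  have := sum (2 ^ y₀)
  omega

/-- `q m` = the prime number `m` for `m < 2 ^ J`, and the prime number
`count (4 ^ j + 1) + (m - 2 ^ j)` for `2 ^ j ≤ m < 2 ^ (j + 1)`, `J ≤ j` (`LPF680.many_primes`,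
`LPF680.nth_le`). -/
theorem exists_res : ∃ q : ℕ → ℕ, Res q := by
  obtain ⟨J, hstep, hJ⟩ := exists_J
  obtain ⟨idx, hidx⟩ : ∃ idx : ℕ → ℕ, ∀ m, idx m = if m < 2 ^ J then m else
      Nat.count Nat.Prime (4 ^ Nat.log 2 m + 1) + (m - 2 ^ Nat.log 2 m) := ⟨_, fun _ => rfl⟩
  have idx_small : ∀ m, m < 2 ^ J → idx m = m := fun m h => by rw [hidx, if_pos h]
  have idx_big : ∀ j m, J ≤ j → 2 ^ j ≤ m → m < 2 ^ (j + 1) →
      idx m = Nat.count Nat.Prime (4 ^ j + 1) + (m - 2 ^ j) := by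
    intro j m hj h1 h2
    have h3 : Nat.log 2 m = j := Nat.log_eq_of_pow_le_of_lt_pow h1 h2
    have h4 : 2 ^ J ≤ 2 ^ j := Nat.pow_le_pow_right (by norm_num) hj
    rw [hidx, if_neg (by omega), h3]
  have hlog : ∀ m, 2 ^ J ≤ m → ∃ j, J ≤ j ∧ 2 ^ j ≤ m ∧ m < 2 ^ (j + 1) := by
    intro m hm
    have hm0 : m ≠ 0 := by
      have : 0 < 2 ^ J := by positivity
      omega
    exact ⟨Nat.log 2 m, Nat.le_log_of_pow_le (by norm_num) hm, Nat.pow_log_le_self 2 hm0,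
      Nat.lt_pow_succ_log_self (by norm_num) m⟩
  have hmono : StrictMono idx := strictMono_nat_of_lt_succ (by
    intro m
    by_cases h : m + 1 < 2 ^ J
    · rw [idx_small m (by omega), idx_small (m + 1) h]; omega
    · by_cases h' : m < 2 ^ J
      · have hm : m + 1 = 2 ^ J := by omega
        have e : 2 ^ (J + 1) = 2 * 2 ^ J := by ring
        rw [idx_small m h', idx_big J (m + 1) le_rfl (by omega) (by omega)]
        omega
      · obtain ⟨j, hj, h1, h2⟩ := hlog m (by omega)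
        rw [idx_big j m hj h1 h2]
        have e1 : 2 ^ (j + 1) = 2 * 2 ^ j := by ring
        have e2 : 2 ^ (j + 1 + 1) = 2 * 2 ^ (j + 1) := by ring
        by_cases h3 : m + 1 < 2 ^ (j + 1)
        · rw [idx_big j (m + 1) hj (by omega) h3]; omega
        · rw [idx_big (j + 1) (m + 1) (by omega) (by omega) (by omega)]
          have := hstep j hj
          omega)
  refine ⟨fun m => Nat.nth Nat.Prime (idx m), ⟨fun m => Nat.prime_nth_prime _, ?_, ?_, ?_, ?_⟩⟩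
  · exact (Nat.nth_injective Nat.infinite_setOfPred_prime).comp hmono.injective
  · show Nat.nth Nat.Prime (idx 0) = 2
    rw [idx_small 0 (by positivity)]
    exact Nat.nth_prime_zero_eq_two
  · intro m hm
    show Nat.nth Nat.Prime (idx m) ≤ 4 * m ^ 2 + 1
    by_cases h : m < 2 ^ J
    · rw [idx_small m h]; exact LPF680.nth_le m hm
    · obtain ⟨j, hj, h1, h2⟩ := hlog m (by omega)
      have e1 : 2 ^ (j + 1) = 2 * 2 ^ j := by ring
      have h4 : idx m < Nat.count Nat.Prime (4 ^ (j + 1) + 1) := by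
        rw [idx_big j m hj h1 h2]
        have := hstep j hj
        omega
      have h5 : Nat.nth Nat.Prime (idx m) < 4 ^ (j + 1) + 1 := Nat.nth_lt_of_lt_count h4
      have h6 : 4 ^ (j + 1) ≤ 4 * m ^ 2 := by
        have e : (4 : ℕ) ^ (j + 1) = 4 * (2 ^ j) ^ 2 := by
          rw [pow_succ, ← pow_mul, mul_comm j 2, pow_mul]; ring
        rw [e]
        exact Nat.mul_le_mul_left _ (Nat.pow_le_pow_left h1 2)
      omega
  · refine ⟨2 ^ J, fun m hm => ?_⟩
    show m ^ 2 < 4 * Nat.nth Nat.Prime (idx m)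
    obtain ⟨j, hj, h1, h2⟩ := hlog m hm
    have h4 : Nat.count Nat.Prime (4 ^ j + 1) ≤ idx m := by
      rw [idx_big j m hj h1 h2]; omega
    have h5 : 4 ^ j + 1 ≤ Nat.nth Nat.Prime (idx m) :=
      (Nat.count_le_iff_le_nth (p := Nat.Prime) Nat.infinite_setOfPred_prime).1 h4
    have h6 : m ^ 2 < 4 * 4 ^ j := by
      have e : (4 : ℕ) * 4 ^ j = (2 ^ (j + 1)) ^ 2 := by
        rw [← pow_mul, mul_comm (j + 1) 2, pow_mul]; ring
      rw [e]
      exact Nat.pow_lt_pow_left h2 (by norm_num)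
    omega

end Pool.Agent.Lib.LPFR
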